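import Mathlib

/-!
# Mazur's question for varieties whose rational points are the images of finitely many orbits of
algebraic groups: subvarieties of abelian varieties, varieties with an action of an arbitrary connected
algebraic group with finitely many orbits

`K` is a field, `L` is a nontrivially normed field with a homomorphism `σ : K →+* L` of dense range (`K`
a number field and `L` its completion at any place, archimedean or not), and `X ⊆ ℙⁿ` is the closed
subset defined by a set `S` of forms over `K`.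

**Data.** (`OrbitImage`) There are finitely many sets `Q_i` of points over `K` of projective spaces,
groups `Γ_i` which act on the `Q_i` by regular maps (maps which are locally given by forms), and regular
maps `φ_i` from `Q_i` to `X(K)`, such that `X(K)` is the union of the `φ_i(Q_i)`. We suppose

* (`IsRegularAction.finite`) up to Zariski closure there are finitely many orbits: there is a finite
  set `T_i ⊆ Q_i` such that for every normal subgroup `Δ ⊆ Γ_i` of finite index and every `y ∈ Q_i`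
  the set `Δ y` has the same Zariski closure as `Δ γ τ` for some `τ ∈ T_i`, `γ ∈ Γ_i` (for instance,
  `Γ_i` has finitely many orbits in `Q_i`),
* (`OrbitImage.small`) `Γ_i` is mapped to a compact topological group `G_i`, and for every point `x` of
  `X(L)` and every neighbourhood `U` of `x` there is a neighbourhood `U'` of `x` such that the elements
  `γ` of `Γ_i` which are sufficiently close to `1` in `G_i` move all the points `y ∈ Q_i` with
  `φ_i(y) ∈ U'` to points `γ y` which are joined by a rational curve in `Q_i` to a point `z` with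
  `φ_i(z) ∈ U` (for instance to points with `φ_i(γ y) ∈ U`, `z = γ y`).

**Theorem.** Mazur's question has a positive answer for `X` and this place of `K`: the ideals of the
local Zariski closures `Z_x`, `x ∈ X(L)`, take only finitely many values.

**Examples** (these translations are not formalised). Let `K` be a number field.

* `X` an abelian variety or a torsor under an abelian variety `A`: `Q = X(K)`, `Γ = A(K)`, `G = A(L)`.
* `X` an arbitrary closed subvariety of an abelian variety `A`, of any dimension and with any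
  singularities: by Faltings `X(K)` is the union of finitely many cosets `a_i + B_i(K)`, `B_i` abelian
  subvarieties of `A`; take `Q_i = a_i + B_i(K)`, `Γ_i = B_i(K)`, `G_i = B_i(L)`.
* `X` a variety with a finite étale covering by such a variety (for instance, bielliptic surfaces, and
  the quotients of products of curves of genus at least `1` by free actions of finite groups): by the
  theorem of Chevalley and Weil `X(K)` is the union of the images of the rational points of finitely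
  many twists of the covering.
* `X(K)` the union of finitely many orbits of `H(K)` for a connected algebraic group `H` over `K`, not
  necessarily linear (for instance, equivariant compactifications of semiabelian varieties and ruled
  surfaces `ℙ(O ⊕ N)` over elliptic curves with finitely many orbits): the maximal connected linear
  subgroup is unirational, which gives the rational curves, and the quotient of `H(L)` by the closure
  of the group of the rational points of this subgroup which are joined to `1` is compact.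

**Proof.** By the Noetherian property the Zariski closures of the orbits `Δ τ`, `τ ∈ T_i`, `Δ` a
normal subgroup of finite index, are the same for all sufficiently small `Δ ⊆ Δ₀`. For `x ∈ X(L)` let
`Z` be the set of the points of `Q_i` which lie in the Zariski closure of the set of all points `y` of
`Q_i` with `φ_i(y)` close to `x`. Regular maps are continuous in the Zariski topology, hence `Z` is
mapped to itself by the `γ` close to `1` in `G_i`. These generate a subgroup of finite index, since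
`G_i` is compact. So `Z` is a union of sets `Δ z` with `Δ ⊆ Δ₀`, whose Zariski closures are the closures
of the finitely many sets `γ Δ₀ τ`. So there are finitely many possibilities for the closure of `Z`,
and these closures determine `Z_x`.
-/

set_option autoImplicit false

namespace Pool.Agent.Results.MP_f9f755_nt.CompactOrbits

open MvPolynomial Topology

variable {K : Type} [Field K]

/-- `y` and `z` are homogeneous coordinates of the same point. -/
def Same {m : ℕ} (y z : Fin (m + 1) → K) : Prop := ∃ c : K, c ≠ 0 ∧ z = c • y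

/-- `φ` is a regular map from the set `Q` of points of `ℙ^m` to `ℙ^n`: near every point of `Q` it is
given by forms of the same degree. -/
def RegularOn {m n : ℕ} (Q : Set (Fin (m + 1) → K)) (φ : (Fin (m + 1) → K) → (Fin (n + 1) → K)) :
    Prop :=
  ∀ y ∈ Q, ∃ (d : ℕ) (F : Fin (n + 1) → MvPolynomial (Fin (m + 1)) K),
    (∀ i, (F i).IsHomogeneous d) ∧ (∃ i, eval y (F i) ≠ 0) ∧
      ∀ z ∈ Q, (∃ i, eval z (F i) ≠ 0) → Same (φ z) (fun i => eval z (F i))

/-- The ideal of the cone over the set `B` of points: the polynomials which vanish at all the multiples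
of the elements of `B`. Two sets of points have the same Zariski closure in `ℙ^m` if and only if their
ideals are equal. -/
def idl {m : ℕ} (B : Set (Fin (m + 1) → K)) : Ideal (MvPolynomial (Fin (m + 1)) K) where
  carrier := {f | ∀ y ∈ B, ∀ t : K, eval (t • y) f = 0}
  add_mem' := by
    intro f g hf hg y hy t
    rw [map_add, hf y hy t, hg y hy t, add_zero]
  zero_mem' := by
    intro y _ t
    exact map_zero _
  smul_mem' := by
    intro a f hf y hy t
    rw [smul_eq_mul, map_mul, hf y hy t, mul_zero]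

/-- The set `Δ y` of points. -/
def orb {m : ℕ} {Γ : Type} [Group Γ] (act : Γ → (Fin (m + 1) → K) → (Fin (m + 1) → K))
    (Δ : Subgroup Γ) (y : Fin (m + 1) → K) : Set (Fin (m + 1) → K) :=
  (fun δ => act δ y) '' (Δ : Set Γ)

/-- The group `Γ` acts on the set `Q` of points of `ℙ^m` by regular maps, with finitely many orbits up
to Zariski closure: there are finitely many points `τ ∈ T` such that for every normal subgroup `Δ` of
finite index and every point `y` the orbit `Δ y` has the same Zariski closure as `Δ γ τ` for some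
`τ ∈ T` and `γ ∈ Γ`. This is the case if the action has finitely many orbits. -/
structure IsRegularAction {m : ℕ} (Q : Set (Fin (m + 1) → K)) (Γ : Type) [Group Γ]
    (act : Γ → (Fin (m + 1) → K) → (Fin (m + 1) → K)) : Prop where
  maps : ∀ γ, ∀ y ∈ Q, act γ y ∈ Q
  one : ∀ y ∈ Q, Same (act 1 y) y
  mul : ∀ γ δ, ∀ y ∈ Q, Same (act γ (act δ y)) (act (γ * δ) y)
  regular : ∀ γ, RegularOn Q (act γ)
  finite : ∃ T : Finset (Fin (m + 1) → K), (∀ τ ∈ T, τ ∈ Q) ∧
    ∀ Δ : Subgroup Γ, Δ.Normal → Δ.FiniteIndex → ∀ y ∈ Q, ∃ τ ∈ T, ∃ γ,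
      idl (orb act Δ y) = idl (orb act Δ (act γ τ))

/-- Some homogeneous coordinates over `L` of the point `y` over `K` lie in `U`. -/
def Near {L : Type} [Field L] (σ : K →+* L) {n : ℕ} (U : Set (Fin (n + 1) → L))
    (y : Fin (n + 1) → K) : Prop :=
  ∃ c : L, c ≠ 0 ∧ (fun i => c * σ (y i)) ∈ U

/-- The points `y` and `z` of `Q` lie on a rational curve in `Q`: there are polynomials `p_j` in one
variable over `K` such that `p(s) ∈ Q` for all but finitely many `s ∈ K`, and `p(0)`, `p(1)` are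
homogeneous coordinates of `y` and `z`. -/
def Joined {m : ℕ} (Q : Set (Fin (m + 1) → K)) (y z : Fin (m + 1) → K) : Prop :=
  ∃ p : Fin (m + 1) → Polynomial K, {s : K | (fun j => (p j).eval s) ∉ Q}.Finite ∧
    Same y (fun j => (p j).eval 0) ∧ Same z (fun j => (p j).eval 1)

/-- The image of an orbit of a group of compact type in `ℙ^n`. The set `Q` of points of `ℙ^m` over `K`
is an orbit of a group `Γ` acting by regular maps, `φ` is a regular map from `Q` to `ℙ^n`, and `Γ` is
mapped to a compact topological group `G` such that, for every point `x ∈ X` over `L`, the elements `γ`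
of `Γ` close to `1` in `G` move the points `y` of `Q` with image close to `x` to points with image
close to `x`, or at least to points which are joined by a rational curve in `Q` to a point with image
close to `x`. -/
structure OrbitImage {L : Type} [NontriviallyNormedField L] (σ : K →+* L) {n : ℕ}
    (X : Set (Fin (n + 1) → L)) where
  m : ℕ
  Q : Set (Fin (m + 1) → K)
  Γ : Type
  G : Type
  [groupΓ : Group Γ]
  [groupG : Group G]
  [topG : TopologicalSpace G]
  [tgroupG : IsTopologicalGroup G]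
  [compactG : CompactSpace G]
  ι : Γ →* G
  act : Γ → (Fin (m + 1) → K) → (Fin (m + 1) → K)
  φ : (Fin (m + 1) → K) → (Fin (n + 1) → K)
  action : IsRegularAction Q Γ act
  regular : RegularOn Q φ
  small : ∀ x ∈ X, ∀ U ∈ 𝓝 x, ∃ V ∈ 𝓝 (1 : G), ∃ U' ∈ 𝓝 x, ∀ γ, ι γ ∈ V → ∀ y ∈ Q,
    Near σ U' (φ y) → ∃ z ∈ Q, Joined Q z (act γ y) ∧ Near σ U (φ z)

/-! ### Ideals of cones -/

lemma mem_idl {m : ℕ} {B : Set (Fin (m + 1) → K)} {f : MvPolynomial (Fin (m + 1)) K} :
    f ∈ idl B ↔ ∀ y ∈ B, ∀ t : K, eval (t • y) f = 0 := Iff.rfl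

lemma idl_anti {m : ℕ} {B B' : Set (Fin (m + 1) → K)} (h : B ⊆ B') : idl B' ≤ idl B :=
  fun _ hf y hy t => hf y (h hy) t

lemma idl_same {m : ℕ} {B B' : Set (Fin (m + 1) → K)} (h : ∀ y ∈ B', ∃ z ∈ B, Same z y) :
    idl B ≤ idl B' := by
  intro f hf y hy t
  obtain ⟨z, hz, c, -, rfl⟩ := h y hy
  rw [smul_smul]
  exact hf z hz _

lemma Same.symm {m : ℕ} {y z : Fin (m + 1) → K} (h : Same y z) : Same z y := by
  obtain ⟨c, hc, rfl⟩ := h
  exact ⟨c⁻¹, inv_ne_zero hc, by rw [smul_smul, inv_mul_cancel₀ hc, one_smul]⟩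

lemma Same.trans {m : ℕ} {y z w : Fin (m + 1) → K} (h : Same y z) (h' : Same z w) : Same y w := by
  obtain ⟨c, hc, rfl⟩ := h
  obtain ⟨d, hd, rfl⟩ := h'
  exact ⟨d * c, mul_ne_zero hd hc, by rw [smul_smul]⟩

lemma Same.refl {m : ℕ} (y : Fin (m + 1) → K) : Same y y := ⟨1, one_ne_zero, by rw [one_smul]⟩

lemma eval_hom {m d : ℕ} {F : MvPolynomial (Fin (m + 1)) K} (hF : F.IsHomogeneous d) (c : K)
    (y : Fin (m + 1) → K) : eval (c • y) F = c ^ d * eval y F := by
  rw [eval_eq', eval_eq', Finset.mul_sum]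
  refine Finset.sum_congr rfl fun α hα => ?_
  have h := hF (mem_support_iff.1 hα)
  rw [Finsupp.weight_apply, Finsupp.sum_fintype _ _ (fun i => by simp)] at h
  simp only [Pi.smul_apply, smul_eq_mul, mul_pow, Finset.prod_mul_distrib,
    Finset.prod_pow_eq_pow_sum]
  have h2 : ∑ i, α i = d := by
    rw [← h]
    refine Finset.sum_congr rfl fun i _ => ?_
    simp
  rw [h2]
  ring

/-- Regular maps are continuous for the Zariski topology. -/
lemma transport {m n : ℕ} {Q : Set (Fin (m + 1) → K)} {φ : (Fin (m + 1) → K) → (Fin (n + 1) → K)}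
    (hφ : RegularOn Q φ) {B B' : Set (Fin (m + 1) → K)} (hB : B ⊆ Q) (hB' : B' ⊆ Q)
    (h : idl B ≤ idl B') : idl (φ '' B) ≤ idl (φ '' B') := by
  rintro f hf _ ⟨b, hb, rfl⟩ t
  obtain ⟨d, F, hF, ⟨i, hi⟩, hFQ⟩ := hφ b (hB' hb)
  have key : ∀ t : K, eval (t • fun j => eval b (F j)) f = 0 := by
    intro t
    have hg : bind₁ (fun j => C t * F j) f * F i ∈ idl B := by
      intro z hz s
      have hev : ∀ j, eval (s • z) (F j) = s ^ d * eval z (F j) := fun j => eval_hom (hF j) s z
      by_cases hz0 : ∃ j, eval z (F j) ≠ 0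
      · obtain ⟨c, hc, h1⟩ := hFQ z (hB hz) hz0
        have h2 : eval (s • z) (bind₁ (fun j => C t * F j) f) = 0 := by
          have h3 : eval (s • z) (bind₁ (fun j => C t * F j) f) =
              eval (fun j => eval (s • z) (C t * F j)) f := by
            exact (eval₂Hom_bind₁ (RingHom.id K) (s • z) (fun j => C t * F j) f)
          rw [h3]
          have h4 : (fun j => eval (s • z) (C t * F j)) = (t * s ^ d * c) • φ z := by
            funext j
            have h5 := congrFun h1 j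
            simp only [Pi.smul_apply, smul_eq_mul] at h5
            rw [map_mul, eval_C, hev, h5, Pi.smul_apply, smul_eq_mul]
            ring
          rw [h4]
          exact hf _ ⟨z, hz, rfl⟩ _
        rw [map_mul, h2, zero_mul]
      · have h2 : eval z (F i) = 0 := by
          by_contra h3
          exact hz0 ⟨i, h3⟩
        rw [map_mul, hev, h2, mul_zero, mul_zero]
    have h1 := h hg b hb 1
    rw [one_smul, map_mul] at h1
    have h2 := (mul_eq_zero.1 h1).resolve_right hi
    have h3 : eval b (bind₁ (fun j => C t * F j) f) = eval (fun j => eval b (C t * F j)) f := by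
      exact (eval₂Hom_bind₁ (RingHom.id K) b (fun j => C t * F j) f)
    rw [h3] at h2
    have h4 : (fun j => eval b (C t * F j)) = t • fun j => eval b (F j) := by
      funext j
      rw [map_mul, eval_C, Pi.smul_apply, smul_eq_mul]
    rwa [h4] at h2
  obtain ⟨c, hc, h1⟩ := (hFQ b (hB' hb) ⟨i, hi⟩).symm
  rw [h1, smul_smul]
  exact key _

/-- A regular map respects equality of points. -/
lemma RegularOn.same {m n : ℕ} {Q : Set (Fin (m + 1) → K)}
    {φ : (Fin (m + 1) → K) → (Fin (n + 1) → K)} (hφ : RegularOn Q φ) {y z : Fin (m + 1) → K}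
    (hy : y ∈ Q) (hz : z ∈ Q) (h : Same y z) : Same (φ y) (φ z) := by
  obtain ⟨d, F, hF, ⟨i, hi⟩, hFQ⟩ := hφ y hy
  obtain ⟨c, hc, rfl⟩ := h
  have hev : ∀ j, eval (c • y) (F j) = c ^ d * eval y (F j) := fun j => eval_hom (hF j) c y
  have h1 := hFQ y hy ⟨i, hi⟩
  have h2 := hFQ _ hz ⟨i, by rw [hev]; exact mul_ne_zero (pow_ne_zero _ hc) hi⟩
  refine h1.trans (Same.trans ?_ h2.symm)
  refine ⟨c ^ d, pow_ne_zero _ hc, ?_⟩
  funext j
  rw [hev, Pi.smul_apply, smul_eq_mul]

/-! ### Groups of finite index -/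

section orbit

variable {m : ℕ} {Q : Set (Fin (m + 1) → K)} {Γ : Type} [Group Γ]
  {act : Γ → (Fin (m + 1) → K) → (Fin (m + 1) → K)}

/-- The ideal of `γ Δ y₀`. -/
def cos (act : Γ → (Fin (m + 1) → K) → (Fin (m + 1) → K)) (Δ : Subgroup Γ)
    (y₀ : Fin (m + 1) → K) (γ : Γ) : Ideal (MvPolynomial (Fin (m + 1)) K) :=
  idl (act γ '' orb act Δ y₀)

/-- There is a normal subgroup of finite index whose orbit has the smallest Zariski closure. -/
lemma exists_deep_one (act : Γ → (Fin (m + 1) → K) → (Fin (m + 1) → K)) (y₀ : Fin (m + 1) → K) :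
    ∃ Δ₀ : Subgroup Γ, Δ₀.Normal ∧ Δ₀.FiniteIndex ∧ ∀ Δ : Subgroup Γ, Δ.Normal → Δ.FiniteIndex →
      Δ ≤ Δ₀ → idl (orb act Δ y₀) = idl (orb act Δ₀ y₀) := by
  let A : Set (Ideal (MvPolynomial (Fin (m + 1)) K)) :=
    {I | ∃ Δ : Subgroup Γ, Δ.Normal ∧ Δ.FiniteIndex ∧ I = idl (orb act Δ y₀)}
  have hA : A.Nonempty := ⟨_, ⊤, inferInstance, inferInstance, rfl⟩
  obtain ⟨I, ⟨Δ₀, h1, h2, rfl⟩, hmax⟩ := set_has_maximal_iff_noetherian.2
    (inferInstance : IsNoetherian (MvPolynomial (Fin (m + 1)) K) (MvPolynomial (Fin (m + 1)) K)) A hA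
  refine ⟨Δ₀, h1, h2, fun Δ h3 h4 h5 => ?_⟩
  have h6 : idl (orb act Δ₀ y₀) ≤ idl (orb act Δ y₀) := idl_anti (Set.image_mono h5)
  by_contra hne
  exact hmax _ ⟨Δ, h3, h4, rfl⟩ (lt_of_le_of_ne h6 (Ne.symm hne))

/-- The same for finitely many points. -/
lemma exists_deep (act : Γ → (Fin (m + 1) → K) → (Fin (m + 1) → K))
    (T : Finset (Fin (m + 1) → K)) :
    ∃ Δ₀ : Subgroup Γ, Δ₀.Normal ∧ Δ₀.FiniteIndex ∧ ∀ τ ∈ T, ∀ Δ : Subgroup Γ, Δ.Normal →
      Δ.FiniteIndex → Δ ≤ Δ₀ → idl (orb act Δ τ) = idl (orb act Δ₀ τ) := by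
  classical
  induction T using Finset.induction_on with
  | empty => exact ⟨⊤, inferInstance, inferInstance, fun τ hτ => absurd hτ (Finset.notMem_empty τ)⟩
  | insert a T ha ih =>
    obtain ⟨Δ₁, h1, h2, h3⟩ := ih
    obtain ⟨Δ₂, h4, h5, h6⟩ := exists_deep_one act a
    have hn : (Δ₁ ⊓ Δ₂).Normal := inferInstance
    have hf : (Δ₁ ⊓ Δ₂).FiniteIndex := inferInstance
    refine ⟨Δ₁ ⊓ Δ₂, hn, hf, fun τ hτ Δ h7 h8 h9 => ?_⟩
    rcases Finset.mem_insert.1 hτ with rfl | hτ
    · rw [h6 Δ h7 h8 (h9.trans inf_le_right), h6 _ hn hf inf_le_right]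
    · rw [h3 τ hτ Δ h7 h8 (h9.trans inf_le_left), h3 τ hτ _ hn hf inf_le_left]

variable (hQ : IsRegularAction Q Γ act)

include hQ

lemma cos_le {y₀ : Fin (m + 1) → K} (hy₀ : y₀ ∈ Q) {Δ : Subgroup Γ} {γ γ' : Γ}
    (h : γ⁻¹ * γ' ∈ Δ) : cos act Δ y₀ γ ≤ cos act Δ y₀ γ' := by
  refine idl_same ?_
  rintro _ ⟨_, ⟨δ, hδ, rfl⟩, rfl⟩
  refine ⟨_, ⟨_, ⟨γ⁻¹ * γ' * δ, Δ.mul_mem h hδ, rfl⟩, rfl⟩, ?_⟩
  have h1 := hQ.mul γ (γ⁻¹ * γ' * δ) y₀ hy₀
  have h2 := hQ.mul γ' δ y₀ hy₀
  have h3 : γ * (γ⁻¹ * γ' * δ) = γ' * δ := by group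
  rw [h3] at h1
  exact h1.trans h2.symm

lemma cos_eq {y₀ : Fin (m + 1) → K} (hy₀ : y₀ ∈ Q) {Δ : Subgroup Γ} {γ γ' : Γ}
    (h : γ⁻¹ * γ' ∈ Δ) : cos act Δ y₀ γ = cos act Δ y₀ γ' := by
  refine le_antisymm (cos_le hQ hy₀ h) (cos_le hQ hy₀ ?_)
  have h1 := Δ.inv_mem h
  rwa [mul_inv_rev, inv_inv] at h1

lemma orb_subset {y : Fin (m + 1) → K} (hy : y ∈ Q) (Δ : Subgroup Γ) : orb act Δ y ⊆ Q := by
  rintro _ ⟨δ, -, rfl⟩
  exact hQ.maps _ _ hy

/-- The ideal of `Δ γ τ` for a deep subgroup `Δ`. -/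
lemma deep_cos {τ : Fin (m + 1) → K} (hτ : τ ∈ Q) {Δ₀ Δ : Subgroup Γ} (hn : Δ.Normal)
    (h : idl (orb act Δ τ) = idl (orb act Δ₀ τ)) (γ : Γ) :
    idl (orb act Δ (act γ τ)) = cos act Δ₀ τ γ := by
  have h1 : cos act Δ τ γ = cos act Δ₀ τ γ :=
    le_antisymm (transport (hQ.regular γ) (orb_subset hQ hτ _) (orb_subset hQ hτ _) h.le)
      (transport (hQ.regular γ) (orb_subset hQ hτ _) (orb_subset hQ hτ _) h.ge)
  rw [← h1]
  refine le_antisymm (idl_same ?_) (idl_same ?_)
  · rintro _ ⟨_, ⟨δ, hδ, rfl⟩, rfl⟩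
    refine ⟨_, ⟨γ * δ * γ⁻¹, hn.conj_mem δ hδ γ, rfl⟩, ?_⟩
    have h3 := hQ.mul (γ * δ * γ⁻¹) γ τ hτ
    have h4 := hQ.mul γ δ τ hτ
    have h5 : γ * δ * γ⁻¹ * γ = γ * δ := by group
    rw [h5] at h3
    exact h3.trans h4.symm
  · rintro _ ⟨δ, hδ, rfl⟩
    refine ⟨_, ⟨_, ⟨γ⁻¹ * δ * γ, ?_, rfl⟩, rfl⟩, ?_⟩
    · have h6 := hn.conj_mem δ hδ γ⁻¹
      rwa [inv_inv] at h6
    · have h3 := hQ.mul γ (γ⁻¹ * δ * γ) τ hτ
      have h4 := hQ.mul δ γ τ hτ
      have h5 : γ * (γ⁻¹ * δ * γ) = δ * γ := by group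
      rw [h5] at h3
      exact h3.trans h4.symm

/-- The stable sets of points are given by intersections of the ideals of the cosets. -/
lemma stable_ideal {T : Finset (Fin (m + 1) → K)} (hT : ∀ τ ∈ T, τ ∈ Q)
    (hfin : ∀ Δ : Subgroup Γ, Δ.Normal → Δ.FiniteIndex → ∀ y ∈ Q, ∃ τ ∈ T, ∃ γ,
      idl (orb act Δ y) = idl (orb act Δ (act γ τ))) {Δ₀ : Subgroup Γ} [Δ₀.Normal]
    [Δ₀.FiniteIndex]
    (hdeep : ∀ τ ∈ T, ∀ Δ : Subgroup Γ, Δ.Normal → Δ.FiniteIndex →
      Δ ≤ Δ₀ → idl (orb act Δ τ) = idl (orb act Δ₀ τ))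
    (Z : Set (Fin (m + 1) → K)) (hZQ : Z ⊆ Q)
    (Δ : Subgroup Γ) [Δ.FiniteIndex] (hZΔ : ∀ δ ∈ Δ, ∀ y ∈ Z, act δ y ∈ Z) :
    idl Z = sInf ((fun c : T × (Γ ⧸ Δ₀) => cos act Δ₀ (c.1 : Fin (m + 1) → K) c.2.out) ''
      {c | idl Z ≤ cos act Δ₀ (c.1 : Fin (m + 1) → K) c.2.out}) := by
  refine le_antisymm ?_ ?_
  · refine le_sInf ?_
    rintro _ ⟨c, hc, rfl⟩
    exact hc
  · intro f hf z hz t
    let Δ' : Subgroup Γ := Δ.normalCore ⊓ Δ₀
    have hn : Δ'.Normal := inferInstance
    have hfi : Δ'.FiniteIndex := inferInstance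
    obtain ⟨τ, hτ, γ, h1⟩ := hfin Δ' hn hfi z (hZQ hz)
    rw [deep_cos hQ (hT τ hτ) hn (hdeep τ hτ Δ' hn hfi inf_le_right) γ] at h1
    have hout : cos act Δ₀ τ (γ : Γ ⧸ Δ₀).out = cos act Δ₀ τ γ := by
      refine cos_eq hQ (hT τ hτ) ?_
      rw [← QuotientGroup.eq]
      exact Quotient.out_eq' _
    have h2 : idl Z ≤ idl (orb act Δ' z) := by
      refine idl_anti ?_
      rintro _ ⟨δ, hδ, rfl⟩
      exact hZΔ _ (Subgroup.normalCore_le Δ hδ.1) _ hz
    have h3 : f ∈ idl (orb act Δ' z) := by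
      rw [h1, ← hout]
      refine (Submodule.mem_sInf.1 hf) _ ⟨(⟨τ, hτ⟩, (γ : Γ ⧸ Δ₀)), ?_, rfl⟩
      show idl Z ≤ cos act Δ₀ τ (γ : Γ ⧸ Δ₀).out
      rw [hout, ← h1]
      exact h2
    have h4 : idl (orb act Δ' z) ≤ idl {z} := by
      refine idl_same ?_
      rintro y rfl
      exact ⟨_, ⟨1, Δ'.one_mem, rfl⟩, hQ.one y (hZQ hz)⟩
    exact h4 h3 z rfl t

end orbit

/-! ### Compact groups -/

/-- The elements close to `1` in a compact group generate a subgroup of finite index. -/
lemma exists_small {Γ G : Type} [Group Γ] [Group G] [TopologicalSpace G] [IsTopologicalGroup G]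
    [CompactSpace G] (ι : Γ →* G) {V : Set G} (hV : V ∈ 𝓝 (1 : G)) :
    ∃ Δ : Subgroup Γ, Δ.FiniteIndex ∧ ∀ P : Γ → Prop, (∀ γ, ι γ ∈ V → P γ) →
      (∀ γ δ, P γ → P δ → P (γ * δ)) → ∀ δ ∈ Δ, P δ := by
  let V₁ : Set G := V ∩ V⁻¹
  have hV₁ : V₁ ∈ 𝓝 (1 : G) := Filter.inter_mem hV (inv_mem_nhds_one G hV)
  let T : Set Γ := {γ | ι γ ∈ V₁}
  have hT : T⁻¹ = T := by
    ext γ
    show ι γ⁻¹ ∈ V ∩ V⁻¹ ↔ ι γ ∈ V ∩ V⁻¹
    rw [map_inv]
    simp only [Set.mem_inter_iff, Set.mem_inv, inv_inv]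
    tauto
  let Δ : Subgroup Γ := Subgroup.closure T
  refine ⟨Δ, ?_, ?_⟩
  · obtain ⟨W, hW, hWV⟩ : ∃ W ∈ 𝓝 (1 : G), ∀ a ∈ W, ∀ b ∈ W, a⁻¹ * b ∈ V₁ := by
      have hc : Filter.Tendsto (fun q : G × G => q.1⁻¹ * q.2) (𝓝 (1, 1)) (𝓝 1) := by
        have h : Continuous fun q : G × G => q.1⁻¹ * q.2 := by fun_prop
        have h2 := h.tendsto ((1 : G), (1 : G))
        have h3 : ((1 : G), (1 : G)).1⁻¹ * ((1 : G), (1 : G)).2 = 1 := by
          rw [inv_one, one_mul]
        have h4 : 𝓝 (1 : G) = 𝓝 (((1 : G), (1 : G)).1⁻¹ * ((1 : G), (1 : G)).2) := by rw [h3]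
        rw [h4]
        exact h2
      have h1 := hc hV₁
      rw [Filter.mem_map, nhds_prod_eq, Filter.mem_prod_self_iff] at h1
      obtain ⟨W, hW, hWV⟩ := h1
      exact ⟨W, hW, fun a ha b hb => hWV (Set.mk_mem_prod ha hb)⟩
    obtain ⟨t, ht⟩ := compact_covered_by_mul_left_translates (isCompact_univ (X := G))
      (V := W) ⟨1, mem_interior_iff_mem_nhds.2 hW⟩
    have hg : ∀ c : Γ ⧸ Δ, ∃ g : t, (g : G) * ι c.out ∈ W := by
      intro c
      have h1 := ht (Set.mem_univ (ι c.out))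
      simp only [Set.mem_iUnion] at h1
      obtain ⟨g, hg, h2⟩ := h1
      exact ⟨⟨g, hg⟩, h2⟩
    choose g hg using hg
    have hinj : Function.Injective g := by
      intro c c' hcc
      have hg' : (g c : G) * ι c'.out ∈ W := by
        rw [hcc]
        exact hg c'
      have h1 := hWV _ (hg c) _ hg'
      have h2 : (((g c : G) * ι c.out)⁻¹ * ((g c : G) * ι c'.out)) = ι (c.out⁻¹ * c'.out) := by
        rw [map_mul, map_inv]
        group
      rw [h2] at h1
      have h3 : c.out⁻¹ * c'.out ∈ Δ := Subgroup.subset_closure h1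
      rw [← QuotientGroup.eq] at h3
      have h4 : ((c.out : Γ) : Γ ⧸ Δ) = c := Quotient.out_eq' c
      have h5 : ((c'.out : Γ) : Γ ⧸ Δ) = c' := Quotient.out_eq' c'
      rw [← h4, h3, h5]
    have : Finite (Γ ⧸ Δ) := Finite.of_injective g hinj
    exact Subgroup.finiteIndex_of_finite_quotient
  · intro P hP hmul δ hδ
    have h1 : δ ∈ Submonoid.closure T := by
      have h2 : δ ∈ (Subgroup.closure T).toSubmonoid := hδ
      rw [Subgroup.closure_toSubmonoid, hT, Set.union_self] at h2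
      exact h2
    have h1P : P 1 := hP 1 (by rw [map_one]; exact mem_of_mem_nhds hV)
    induction h1 using Submonoid.closure_induction with
    | mem x hx => exact hP x hx.1
    | one => exact h1P
    | mul x y hx hy h3 h4 =>
      refine hmul x y (h3 ?_) (h4 ?_)
      · have : x ∈ (Subgroup.closure T).toSubmonoid := by
          rw [Subgroup.closure_toSubmonoid, hT, Set.union_self]
          exact hx
        exact this
      · have : y ∈ (Subgroup.closure T).toSubmonoid := by
          rw [Subgroup.closure_toSubmonoid, hT, Set.union_self]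
          exact hy
        exact this

/-! ### The local ideals of one orbit -/

section localideals

variable {L : Type} [NontriviallyNormedField L] {σ : K →+* L} {n : ℕ}
  {X : Set (Fin (n + 1) → L)}

lemma Near.same {U : Set (Fin (n + 1) → L)} {y z : Fin (n + 1) → K} (h : Near σ U y)
    (hs : Same y z) : Near σ U z := by
  obtain ⟨c, hc, h1⟩ := h
  obtain ⟨d, hd, rfl⟩ := hs
  refine ⟨c * (σ d)⁻¹, mul_ne_zero hc (inv_ne_zero ((map_ne_zero σ).2 hd)), ?_⟩
  convert h1 using 1
  funext i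
  rw [Pi.smul_apply, smul_eq_mul, map_mul]
  have h2 : σ d ≠ 0 := (map_ne_zero σ).2 hd
  field_simp

lemma Near.mono {U U' : Set (Fin (n + 1) → L)} (hU : U ⊆ U') {y : Fin (n + 1) → K}
    (h : Near σ U y) : Near σ U' y := by
  obtain ⟨c, hc, h1⟩ := h
  exact ⟨c, hc, hU h1⟩

/-- There are infinitely many small elements of `K`. -/
lemma infinite_small (hσ : DenseRange σ) {W : Set L} (hW : W ∈ 𝓝 (0 : L)) :
    {s : K | σ s ∈ W}.Infinite := by
  intro hfin
  have h1 : (interior W).Infinite := infinite_of_mem_nhds (0 : L) (interior_mem_nhds.2 hW)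
  have h2 : (interior W \ σ '' {s : K | σ s ∈ W}).Nonempty := by
    by_contra hne
    rw [Set.not_nonempty_iff_eq_empty, Set.sdiff_eq_empty] at hne
    exact h1 ((hfin.image σ).subset hne)
  obtain ⟨s, hs⟩ := hσ.exists_mem_open
    (isOpen_interior.sdiff (hfin.image σ).isClosed) h2
  exact hs.2 ⟨s, (interior_subset hs.1 : σ s ∈ W), rfl⟩

/-- The points on a rational curve through a point with image in `U` lie in the Zariski closure of the
set of the points with image in `U`. -/
lemma joined_mem (hσ : DenseRange σ) {m : ℕ} {Q : Set (Fin (m + 1) → K)}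
    {φ : (Fin (m + 1) → K) → (Fin (n + 1) → K)} (hφ : RegularOn Q φ) {z w : Fin (m + 1) → K}
    (hz : z ∈ Q) (hj : Joined Q z w) {U : Set (Fin (n + 1) → L)} (hU : IsOpen U)
    (hn : Near σ U (φ z)) : idl {q | q ∈ Q ∧ Near σ U (φ q)} ≤ idl {w} := by
  classical
  obtain ⟨p, hp, hp0, hp1⟩ := hj
  obtain ⟨d, F, hF, ⟨i, hi⟩, hFQ⟩ := hφ z hz
  -- the polynomials `F_j (p (s))`
  let G : Fin (n + 1) → Polynomial K := fun j => aeval p (F j)
  have hG : ∀ j s, (G j).eval s = eval (fun k => (p k).eval s) (F j) := by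
    intro j s
    show (Polynomial.evalRingHom s) (aeval p (F j)) = _
    rw [MvPolynomial.aeval_def, MvPolynomial.hom_eval₂]
    have h1 : (Polynomial.evalRingHom s).comp (algebraMap K (Polynomial K)) = RingHom.id K := by
      ext a
      simp
    rw [h1]
    rfl
  have hi0 : (G i).eval 0 ≠ 0 := by
    obtain ⟨c, hc, h1⟩ := hp0
    rw [hG, h1, eval_hom (hF i)]
    exact mul_ne_zero (pow_ne_zero _ hc) hi
  have hG0 : G i ≠ 0 := by
    intro h0
    rw [h0, Polynomial.eval_zero] at hi0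
    exact hi0 rfl
  have hn0 : Near σ U (fun j => (G j).eval 0) := by
    refine hn.same ?_
    have h1 := hFQ z hz ⟨i, hi⟩
    obtain ⟨c, hc, h2⟩ := hp0
    refine h1.trans ⟨c ^ d, pow_ne_zero _ hc, ?_⟩
    funext j
    rw [hG, h2, eval_hom (hF j), Pi.smul_apply, smul_eq_mul]
  obtain ⟨c, hc, hcU⟩ := hn0
  have hcont : Continuous fun u : L => fun j => c * ((G j).map σ).eval u :=
    continuous_pi fun j => continuous_const.mul ((G j).map σ).continuous
  have hval : ∀ s : K, (fun j => c * ((G j).map σ).eval (σ s)) =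
      fun j => c * σ ((G j).eval s) := by
    intro s
    funext j
    rw [Polynomial.eval_map, Polynomial.eval₂_at_apply]
  have hW : (fun u : L => fun j => c * ((G j).map σ).eval u) ⁻¹' U ∈ 𝓝 (0 : L) := by
    refine hcont.continuousAt.preimage_mem_nhds (hU.mem_nhds ?_)
    have h1 := hval 0
    rw [map_zero] at h1
    rw [h1]
    exact hcU
  have hinf := infinite_small (σ := σ) hσ hW
  have hgood : ∀ s : K, σ s ∈ (fun u : L => fun j => c * ((G j).map σ).eval u) ⁻¹' U →
      (fun j => (p j).eval s) ∈ Q → (G i).eval s ≠ 0 →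
      (fun j => (p j).eval s) ∈ {q | q ∈ Q ∧ Near σ U (φ q)} := by
    intro s hs hsQ hsi
    refine ⟨hsQ, ?_⟩
    have h1 := hFQ _ hsQ ⟨i, by rw [← hG]; exact hsi⟩
    refine Near.same ?_ h1.symm
    refine ⟨c, hc, ?_⟩
    have h2 : (fun j => c * ((G j).map σ).eval (σ s)) ∈ U := hs
    rw [hval] at h2
    convert h2 using 3 with j
    rw [hG]
  intro f hf y hy t₀
  rw [Set.mem_singleton_iff] at hy
  subst hy
  -- the polynomials `f (t p (s))` vanish identically
  have key : ∀ t : K, eval (t • fun k => (p k).eval 1) f = 0 := by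
    intro t
    let g : Polynomial K := aeval (fun k => Polynomial.C t * p k) f
    have hg : ∀ s, g.eval s = eval (t • fun k => (p k).eval s) f := by
      intro s
      show (Polynomial.evalRingHom s) (aeval (fun k => Polynomial.C t * p k) f) = _
      rw [MvPolynomial.aeval_def, MvPolynomial.hom_eval₂]
      have h1 : (Polynomial.evalRingHom s).comp (algebraMap K (Polynomial K)) = RingHom.id K := by
        ext a
        simp
      rw [h1]
      show eval (fun k => Polynomial.eval s (Polynomial.C t * p k)) f = _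
      congr 1
      congr 1
      funext k
      rw [Polynomial.eval_mul, Polynomial.eval_C, Pi.smul_apply, smul_eq_mul]
    have hg0 : g = 0 := by
      by_contra hne
      have hfin1 : {s : K | g.eval s = 0}.Finite := Polynomial.finite_setOfPred_isRoot hne
      have hfin2 : {s : K | (G i).eval s = 0}.Finite := Polynomial.finite_setOfPred_isRoot hG0
      refine hinf ((hfin1.union (hfin2.union hp)).subset fun s hs => ?_)
      by_cases h2 : (G i).eval s = 0
      · exact Or.inr (Or.inl h2)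
      by_cases h3 : (fun j => (p j).eval s) ∈ Q
      · left
        show g.eval s = 0
        rw [hg]
        exact hf _ (hgood s hs h3 h2) t
      · exact Or.inr (Or.inr h3)
    rw [← hg, hg0, Polynomial.eval_zero]
  obtain ⟨c', hc', h2⟩ := hp1.symm
  rw [h2, smul_smul]
  exact key _

/-- The points of the orbit with image in `U`. -/
def OrbitImage.pts (P : OrbitImage σ X) (U : Set (Fin (n + 1) → L)) : Set (Fin (P.m + 1) → K) :=
  {q | q ∈ P.Q ∧ Near σ U (P.φ q)}

/-- `I` is the ideal of the local Zariski closure at `x`, in the source. -/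
def OrbitImage.Best (P : OrbitImage σ X) (x : Fin (n + 1) → L)
    (I : Ideal (MvPolynomial (Fin (P.m + 1)) K)) : Prop :=
  ∃ U₀ ∈ 𝓝 x, I = idl (P.pts U₀) ∧ ∀ U ∈ 𝓝 x, idl (P.pts U) ≤ idl (P.pts U₀)

lemma OrbitImage.pts_mono (P : OrbitImage σ X) {U U' : Set (Fin (n + 1) → L)} (h : U ⊆ U') :
    P.pts U ⊆ P.pts U' := fun _ hq => ⟨hq.1, hq.2.mono h⟩

lemma OrbitImage.exists_best (P : OrbitImage σ X) (x : Fin (n + 1) → L) :
    ∃ I, P.Best x I := by
  let A : Set (Ideal (MvPolynomial (Fin (P.m + 1)) K)) := {I | ∃ U ∈ 𝓝 x, I = idl (P.pts U)}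
  have hA : A.Nonempty := ⟨_, Set.univ, Filter.univ_mem, rfl⟩
  obtain ⟨I, ⟨U₀, h1, rfl⟩, hmax⟩ := set_has_maximal_iff_noetherian.2
    (inferInstance : IsNoetherian (MvPolynomial (Fin (P.m + 1)) K)
      (MvPolynomial (Fin (P.m + 1)) K)) A hA
  refine ⟨_, U₀, h1, rfl, fun U hU => ?_⟩
  have h2 : idl (P.pts U₀) ≤ idl (P.pts (U ∩ U₀)) := idl_anti (P.pts_mono Set.inter_subset_right)
  have h3 : idl (P.pts U) ≤ idl (P.pts (U ∩ U₀)) := idl_anti (P.pts_mono Set.inter_subset_left)
  have h4 : idl (P.pts (U ∩ U₀)) = idl (P.pts U₀) := by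
    by_contra hne
    exact hmax _ ⟨U ∩ U₀, Filter.inter_mem hU h1, rfl⟩ (lt_of_le_of_ne h2 (Ne.symm hne))
  rw [← h4]
  exact h3

/-- The ideals of the local Zariski closures of one orbit form a finite set. -/
lemma OrbitImage.finite_best (hσ : DenseRange σ) (P : OrbitImage σ X) :
    {I | ∃ x ∈ X, P.Best x I}.Finite := by
  let _ := P.groupΓ
  let _ := P.groupG
  let _ := P.topG
  have := P.tgroupG
  have := P.compactG
  obtain ⟨T, hT, hTfin⟩ := P.action.finite
  obtain ⟨Δ₀, hn, hfi, hdeep⟩ := exists_deep P.act T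
  have hfin : (Set.range fun C : Set (T × (P.Γ ⧸ Δ₀)) =>
      sInf ((fun c : T × (P.Γ ⧸ Δ₀) =>
        cos P.act Δ₀ (c.1 : Fin (P.m + 1) → K) c.2.out) '' C)).Finite := by
    have : Finite (P.Γ ⧸ Δ₀) := Subgroup.finite_quotient_of_finiteIndex
    exact Set.finite_range _
  refine hfin.subset ?_
  rintro I ⟨x, hx, U₀, hU₀, rfl, hbest⟩
  obtain ⟨V, hV, U', hU', hsmall⟩ := P.small x hx (interior U₀) (interior_mem_nhds.2 hU₀)
  let Z : Set (Fin (P.m + 1) → K) := {q | q ∈ P.Q ∧ idl (P.pts U₀) ≤ idl {q}}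
  have hZS : ∀ y ∈ Z, ∀ z ∈ P.Q, Same y z → z ∈ Z := by
    intro y hy z hz hs
    refine ⟨hz, hy.2.trans (idl_same ?_)⟩
    rintro w rfl
    exact ⟨y, rfl, hs⟩
  obtain ⟨Δ, hΔ, hΔP⟩ := exists_small P.ι hV
  have hstab : ∀ δ ∈ Δ, ∀ y ∈ Z, P.act δ y ∈ Z := by
    intro δ hδ
    refine hΔP (fun δ => ∀ y ∈ Z, P.act δ y ∈ Z) ?_ ?_ δ hδ
    · intro γ hγ y hy
      refine ⟨P.action.maps _ _ hy.1, ?_⟩
      have h1 : idl (P.pts (U' ∩ U₀)) ≤ idl {y} := (hbest _ (Filter.inter_mem hU' hU₀)).trans hy.2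
      have h2 := transport (P.action.regular γ) (B := P.pts (U' ∩ U₀)) (B' := {y})
        (fun q hq => hq.1) (Set.singleton_subset_iff.2 hy.1) h1
      rw [Set.image_singleton] at h2
      refine le_trans ?_ h2
      rintro f hf _ ⟨q, hq, rfl⟩ t
      obtain ⟨z, hz, hj, hn⟩ := hsmall γ hγ q hq.1 (hq.2.mono Set.inter_subset_left)
      have h3 := joined_mem hσ P.regular hz hj isOpen_interior hn
      exact h3 (idl_anti (P.pts_mono interior_subset) hf) _ rfl t
    · intro γ δ h1 h2 y hy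
      exact hZS _ (h1 _ (h2 y hy)) _ (P.action.maps _ _ hy.1) (P.action.mul γ δ y hy.1)
  have hZ : idl (P.pts U₀) = idl Z := by
    refine le_antisymm ?_ (idl_anti fun q hq => ⟨hq.1, idl_anti (Set.singleton_subset_iff.2 hq)⟩)
    intro f hf z hz t
    exact hz.2 hf z rfl t
  exact ⟨_, (hZ.trans (stable_ideal P.action hT hTfin hdeep Z (fun q hq => hq.1) Δ
    hstab)).symm⟩

end localideals

/-- **Mazur's question for varieties whose rational points are the images of finitely many orbits of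
algebraic groups.** The conclusion is that of the frozen statement `S19033`: the ideals of the local
Zariski closures of `X(K)` at the points `x` of `X(L)` take only finitely many values. -/
theorem result (K : Type) [Field K] (L : Type) [NontriviallyNormedField L] (σ : K →+* L)
    (hσ : DenseRange σ) (n : ℕ) (S : Set (MvPolynomial (Fin (n + 1)) K)) (r : ℕ)
    (P : Fin r → OrbitImage σ {x : Fin (n + 1) → L | x ≠ 0 ∧ ∀ g ∈ S, eval₂ σ x g = 0})
    -- the images of the orbits consist of points of `X`, and every rational point is such an image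
    (hP : ∀ i, ∀ q ∈ (P i).Q, (P i).φ q ≠ 0 ∧ ∀ g ∈ S, eval ((P i).φ q) g = 0)
    (hcov : ∀ y : Fin (n + 1) → K, y ≠ 0 → (∀ g ∈ S, eval y g = 0) →
      ∃ i, ∃ q ∈ (P i).Q, Same ((P i).φ q) y) :
    {J : Set (MvPolynomial (Fin (n + 1)) K) |
      ∃ x : Fin (n + 1) → L, x ≠ 0 ∧ (∀ g ∈ S, eval₂ σ x g = 0) ∧
        J = {f : MvPolynomial (Fin (n + 1)) K |
          ∃ U ∈ nhds x, ∀ y : Fin (n + 1) → K, y ≠ 0 →
            (∀ g ∈ S, eval y g = 0) →
            (∃ c : L, c ≠ 0 ∧ (fun i => c * σ (y i)) ∈ U) →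
            ∀ t : K, eval (t • y) f = 0}}.Finite := by
  classical
  let X : Set (Fin (n + 1) → L) := {x | x ≠ 0 ∧ ∀ g ∈ S, eval₂ σ x g = 0}
  let J : (Fin (n + 1) → L) → Set (MvPolynomial (Fin (n + 1)) K) := fun x =>
    {f | ∃ U ∈ nhds x, ∀ y : Fin (n + 1) → K, y ≠ 0 → (∀ g ∈ S, eval y g = 0) →
      (∃ c : L, c ≠ 0 ∧ (fun i => c * σ (y i)) ∈ U) → ∀ t : K, eval (t • y) f = 0}
  have hdet : ∀ (I : ∀ i, Ideal (MvPolynomial (Fin ((P i).m + 1)) K)) (x x' : Fin (n + 1) → L),
      (∀ i, (P i).Best x (I i)) → (∀ i, (P i).Best x' (I i)) → J x ⊆ J x' := by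
    rintro I x x' hx hx' f ⟨U, hU, hf⟩
    choose U₀ hU₀ hI hb using hx
    choose U₁ hU₁ hI' hb' using hx'
    refine ⟨⋂ i, U₁ i, Filter.iInter_mem.2 hU₁, fun y hy0 hyS hc t => ?_⟩
    obtain ⟨i, q, hq, hs⟩ := hcov y hy0 hyS
    have h1 : f ∈ idl ((P i).φ '' (P i).pts (U ∩ U₀ i)) := by
      rintro _ ⟨z, hz, rfl⟩ s
      exact hf _ (hP i z hz.1).1 (hP i z hz.1).2 (hz.2.mono Set.inter_subset_left) s
    have h2 : idl ((P i).pts (U ∩ U₀ i)) ≤ idl ((P i).pts (U₁ i)) := by
      rw [← hI' i, hI i]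
      exact hb i _ (Filter.inter_mem hU (hU₀ i))
    have h3 := transport (P i).regular (fun q hq => hq.1) (fun q hq => hq.1) h2 h1
    have h4 : Near σ (U₁ i) ((P i).φ q) := by
      refine Near.same (Near.mono (Set.iInter_subset _ i) ?_) hs.symm
      exact hc
    obtain ⟨c, -, rfl⟩ := hs
    rw [smul_smul]
    exact h3 _ ⟨q, ⟨hq, h4⟩, rfl⟩ _
  let Ψ : (∀ i, Ideal (MvPolynomial (Fin ((P i).m + 1)) K)) →
      Set (MvPolynomial (Fin (n + 1)) K) := fun I =>
    if h : ∃ x, ∀ i, (P i).Best x (I i) then J h.choose else ∅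
  have hfin : (Set.pi Set.univ fun i => {I | ∃ x ∈ X, (P i).Best x I}).Finite :=
    Set.Finite.pi fun i => (P i).finite_best hσ
  refine (hfin.image Ψ).subset ?_
  rintro _ ⟨x, hx0, hxS, rfl⟩
  choose I hI using fun i => (P i).exists_best x
  refine ⟨I, fun i _ => ⟨x, ⟨hx0, hxS⟩, hI i⟩, ?_⟩
  have h : ∃ x, ∀ i, (P i).Best x (I i) := ⟨x, hI⟩
  show Ψ I = J x
  simp only [Ψ, dif_pos h]
  exact Set.Subset.antisymm (hdet I _ _ h.choose_spec hI) (hdet I _ _ hI h.choose_spec)

end Pool.Agent.Results.MP_f9f755_nt.CompactOrbits
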