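import Pool.Agent.Q256.Orb

/-!
# Mazur's question for projective varieties with finitely many orbits of a linear algebraic group

`K` is a field, `L` is a nontrivially normed field with a homomorphism `σ : K →+* L` of dense range
(for instance `K` is a number field and `L` its completion at any place), and `X ⊆ ℙⁿ` is the
closed subset defined by a set `S` of forms over `K`. `P₁, …, P_r` are polynomial families
`P_i : 𝔸ᵐ → Mat_{n+1}` of matrices with `P_i(0) = 1` which preserve the cone of `X(K)`.

If a connected linear algebraic group `G` over a number field `K` acts on `X` by linear maps of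
`ℙⁿ`, such families exist and generate the image of `G` in `PGL_{n+1}` (`G` is unirational; translate
a parametrization so that `0 ↦ 1` and clear the denominators).

(1) Every local Zariski closure `Z_x` in Mazur's question is invariant under all `P_i(s)`.

(2) The ideal of `Z_x` is an intersection of ideals of orbits of rational points, for the monoid
generated by the `P_i(s)`, `s ∈ Kᵐ`.

(3) If the `K`-points of `X` lie in finitely many orbits, over the algebraic closure of `K`, of the
group generated by the invertible `P_i(s)` and the scalars, then the ideals of the sets `Z_x` take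
only finitely many values: Mazur's question has a positive answer for `X` and every place of `K`.

So the answer is positive for all projective varieties on which a connected linear algebraic group
acts linearly with finitely many orbits over the algebraic closure: projective toric varieties
(normal or not), Schubert varieties and their unions, spherical varieties, the loci of matrices,
of symmetric matrices and of skew-symmetric matrices of bounded rank, projective prehomogeneous
varieties with finitely many orbits such as the discriminant of the binary cubic forms or the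
hyperdeterminant of format `2 × 2 × 2`. They may have any singularities.

Proof. A polynomial `f` which vanishes at the rational points close to `x` also vanishes at
`P_i(s) y`, for `y` close to `x` and `s` close to `0`; as a polynomial in `s` it vanishes on
`Kᵐ`. So the ideal of `Z_x` is stable, and since it is finitely generated there is a neighbourhood
of `x` all of whose rational points `y` have their whole orbit in `Z_x`. The ideal of the
orbit of `y` depends only on the orbit of `y` over the algebraic closure: polynomial identities
extend from `K` to the closure, and a stable ideal is stable under inverses, since polynomial rings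
are noetherian.
-/

set_option autoImplicit false

namespace Pool.Agent.Results.MP_f9f755_nt.FinitelyManyOrbits

open MvPolynomial Matrix Pool.Agent.Q256.Orb

universe u v

/-- **Mazur's question for varieties with finitely many orbits of a linear algebraic group.** -/
theorem result :
    ∀ (K : Type u) [Field K] (L : Type v) [NontriviallyNormedField L] (σ : K →+* L),
      DenseRange σ →
    ∀ (n : ℕ) (S : Set (MvPolynomial (Fin (n + 1)) K)), (∀ f ∈ S, ∃ d : ℕ, f.IsHomogeneous d) →
    ∀ (r m : ℕ) (P : Fin r → Matrix (Fin (n + 1)) (Fin (n + 1)) (MvPolynomial (Fin m) K)),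
      (∀ i, (P i).map (eval 0) = 1) →
      (∀ i (s : Fin m → K) (y : Fin (n + 1) → K), (∀ g ∈ S, eval y g = 0) →
        ∀ g ∈ S, eval ((P i).map (eval s) *ᵥ y) g = 0) →
    ∀ J : (Fin (n + 1) → L) → Set (MvPolynomial (Fin (n + 1)) K),
      -- `J x` is the ideal of the local Zariski closure at `x`
      (∀ x, J x = {f : MvPolynomial (Fin (n + 1)) K |
        ∃ U ∈ nhds x, ∀ y : Fin (n + 1) → K, y ≠ 0 → (∀ g ∈ S, eval y g = 0) →
          (∃ c : L, c ≠ 0 ∧ (fun i => c * σ (y i)) ∈ U) → ∀ t : K, eval (t • y) f = 0}) →
      -- (1) the local closures are invariant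
      (∀ x, ∀ i (s : Fin m → K), ∀ f ∈ J x,
        bind₁ (fun j => ∑ k, C ((P i).map (eval s) j k) * X k) f ∈ J x) ∧
      -- (2) and intersections of ideals of orbits of rational points
      (∀ x, ∃ Y : Set (Fin (n + 1) → K), (∀ y ∈ Y, y ≠ 0 ∧ ∀ g ∈ S, eval y g = 0) ∧
        J x = {f | ∀ y ∈ Y, ∀ w ∈ Submonoid.closure {M | ∃ i s, M = (P i).map (eval s)},
          ∀ t : K, eval (t • (w *ᵥ y)) f = 0}) ∧
      -- (3) finitely many orbits
      ((∃ T : Finset (Fin (n + 1) → AlgebraicClosure K), ∀ y : Fin (n + 1) → K, y ≠ 0 →
          (∀ g ∈ S, eval y g = 0) → ∃ τ ∈ T, ∃ c : AlgebraicClosure K, c ≠ 0 ∧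
            ∃ g ∈ Subgroup.closure {g : (Matrix (Fin (n + 1)) (Fin (n + 1))
                (AlgebraicClosure K))ˣ | ∃ i s, (g : Matrix (Fin (n + 1)) (Fin (n + 1))
                (AlgebraicClosure K)) = (P i).map (aeval s)},
              (fun i => algebraMap K (AlgebraicClosure K) (y i)) =
                c • ((g : Matrix (Fin (n + 1)) (Fin (n + 1)) (AlgebraicClosure K)) *ᵥ τ)) →
        {I : Set (MvPolynomial (Fin (n + 1)) K) | ∃ x : Fin (n + 1) → L, x ≠ 0 ∧
          (∀ g ∈ S, eval₂ σ x g = 0) ∧ I = J x}.Finite) := by
  classical
  intro K _ L _ σ hσ n S _ r m P hP0 hPS J hJ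
  have hinf : Infinite K := by
    have h := inf_ball σ hσ (V := Set.univ) Filter.univ_mem
    exact Set.infinite_univ_iff.1 (h.mono (Set.subset_univ _))
  set A : Set (Fin (n + 1) → K) := {y | ∀ g ∈ S, eval y g = 0} with hA
  have hloc : ∀ x, J x = loc σ A x := fun x => hJ x
  have hmat : ∀ i (s : Fin m → K), mat K P i s = (P i).map (eval s) := fun i s => rfl
  have hP0' : ∀ i, mat K P i 0 = 1 := hP0
  have hPA : ∀ y ∈ A, ∀ i s, mat K P i s *ᵥ y ∈ A := fun y hy i s => hPS i s y hy
  refine ⟨?_, ?_, ?_⟩
  · intro x i s f hf
    rw [hloc] at hf ⊢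
    exact loc_stable σ hσ P hP0' hPA x i s hf
  · intro x
    obtain ⟨U, hU, hUf⟩ := loc_uniform σ A x
    refine ⟨{y | y ∈ A ∧ y ≠ 0 ∧ ∃ c : L, c ≠ 0 ∧ (fun i => c * σ (y i)) ∈ U},
      fun y hy => ⟨hy.2.1, hy.1⟩, ?_⟩
    ext f
    rw [hloc]
    constructor
    · rintro hf y ⟨hyA, hy0, hc⟩ w hw t
      have h1 := hUf _ (loc_stable_gam σ hσ P hP0' hPA x hw f hf) y hy0 hyA hc t
      rwa [Pool.Agent.Q256.Orb.eval_sub, Matrix.mulVec_smul] at h1
    · intro hf
      refine ⟨U, hU, fun y hy0 hyA hc t => ?_⟩
      have h1 := hf y ⟨hyA, hy0, hc⟩ 1 (one_mem _) t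
      rwa [Matrix.one_mulVec] at h1
  · rintro ⟨T, hT⟩
    have hfin : {I : Ideal (MvPolynomial (Fin (n + 1)) K) |
        ∃ y ∈ A, y ≠ 0 ∧ I = van (gam K P) y}.Finite := by
      have himg : (Set.image (fun τ => van (gam (AlgebraicClosure K) P) τ)
          (T : Set (Fin (n + 1) → AlgebraicClosure K))).Finite := T.finite_toSet.image _
      have hval : ∀ y ∈ A, y ≠ 0 → van (gam (AlgebraicClosure K) P)
          (fun i => algebraMap K (AlgebraicClosure K) (y i)) ∈
          Set.image (fun τ => van (gam (AlgebraicClosure K) P) τ)
            (T : Set (Fin (n + 1) → AlgebraicClosure K)) := by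
        intro y hy hy0
        obtain ⟨τ, hτ, c, hc, g, hg, h⟩ := hT y hy0 hy
        refine ⟨τ, hτ, ?_⟩
        rw [h]
        show van _ τ = _
        rw [van_smul _ hc]
        refine (van_group (Subgroup.closure_mono ?_ hg) τ).symm
        rintro g ⟨i, s, hg⟩
        exact Submonoid.subset_closure ⟨i, s, hg⟩
      -- choose a rational point for every value over the closure
      let Φ : Ideal (MvPolynomial (Fin (n + 1)) (AlgebraicClosure K)) →
          Ideal (MvPolynomial (Fin (n + 1)) K) := fun I =>
        I.comap (MvPolynomial.map (algebraMap K (AlgebraicClosure K)))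
      refine (himg.image Φ).subset ?_
      rintro _ ⟨y, hy, hy0, rfl⟩
      refine ⟨_, hval y hy hy0, ?_⟩
      ext f
      constructor
      · intro hf
        exact mem_van_of_map P y hf
      · intro hf
        exact map_mem_van P y hf
    refine (loc_finite σ hσ P hP0' hPA hfin).subset ?_
    rintro I ⟨x, -, -, rfl⟩
    exact ⟨x, hloc x⟩

end Pool.Agent.Results.MP_f9f755_nt.FinitelyManyOrbits
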