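import Pool.Agent.Q256.Prod
import Pool.Agent.TH729.CV.Trans2
import Pool.Agent.W279.Tri.LocComp

/-!
# Mazur's question for products and joins of varieties of small degree

`K` is a number field, `L` is a complete nontrivially normed field with a homomorphism
`σ : K →+* L` of dense range (the completion of `K` at a place). For `i < r` let `X_i ⊆ ℙ^{n_i}` be
the closed subset defined by a set `S i` of forms over `K`. The *join* of the `X_i` is the
subset of `ℙ^N`, `N + 1 = ∑ (n_i + 1)`, defined by all forms in all `S i`, written in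
separate sets of variables (for `X_0` a point it is the cone over `X_1`).

(1) If Mazur's question has a positive answer for the `X_i` (at the given place), then also for
the product `∏ X_i ⊆ ∏ ℙ^{n_i}` and for the join of the `X_i`.

(2) So the answer is positive for all products and all joins of hypersurfaces of degree at most
three and of intersections of two quadrics, arbitrarily singular. For instance: for a product
of curves of genus one, cubic surfaces and cubic threefolds, and for the complete intersections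

  `F₁(x⁽¹⁾) = F₂(x⁽²⁾) = … = F_r(x⁽ʳ⁾) = 0`   in   `ℙ^N`

with `deg F_i ≤ 3` and separate sets `x⁽ⁱ⁾` of variables.

Proof. The local Zariski closure of a product at `(x_i)` is the product of the local closures at
the `x_i`. The local closure of the join at `(x_i)` is the join of the local closures at the
`x_i` for those `i` with `x_i ≠ 0` and of the Zariski closures of *all* rational points of `X_i`
for those with `x_i = 0`: rational points of the factors can be rescaled independently, because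
`K` is dense in `L`. For (2) we use the theorems on cubic hypersurfaces and intersections of two
quadrics of the library `TH729/CV`.
-/

set_option autoImplicit false

namespace Pool.Agent.Results.MP_f9f755_nt.ProductsAndJoins

open MvPolynomial

universe u v

variable {K : Type u} [Field K] {L : Type v} [NontriviallyNormedField L]

/-- The ideals of the local Zariski closures `Z_x` of the closed subset of `ℙⁿ` defined by `S`, as
in the frozen statement of the problem. -/
def localIdeals (σ : K →+* L) {n : ℕ} (S : Set (MvPolynomial (Fin (n + 1)) K)) :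
    Set (Set (MvPolynomial (Fin (n + 1)) K)) :=
  {J | ∃ x : Fin (n + 1) → L, x ≠ 0 ∧ (∀ g ∈ S, eval₂ σ x g = 0) ∧
    J = {f : MvPolynomial (Fin (n + 1)) K |
      ∃ U ∈ nhds x, ∀ y : Fin (n + 1) → K, y ≠ 0 → (∀ g ∈ S, eval y g = 0) →
        (∃ c : L, c ≠ 0 ∧ (fun i => c * σ (y i)) ∈ U) → ∀ t : K, eval (t • y) f = 0}}

/-- The ideals of the local Zariski closures of the product `∏ X_i ⊆ ∏ ℙ^{n_i}`, where `X_i` is
defined by `S i`. The variables are indexed by the pairs `⟨i, j⟩` with `j ≤ n_i`; the polynomials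
vanish at all `(t₁ Y₁, …, t_r Y_r)`, where `(Y₁, …, Y_r)` are the rational points near `x`. -/
def productIdeals (σ : K →+* L) {r : ℕ} {n : Fin r → ℕ}
    (S : ∀ i, Set (MvPolynomial (Fin (n i + 1)) K)) :
    Set (Set (MvPolynomial (Σ i, Fin (n i + 1)) K)) :=
  {J | ∃ x : ∀ i, Fin (n i + 1) → L, (∀ i, x i ≠ 0) ∧ (∀ i, ∀ g ∈ S i, eval₂ σ (x i) g = 0) ∧
    J = {f : MvPolynomial (Σ i, Fin (n i + 1)) K |
      ∃ U ∈ nhds x, ∀ y : ∀ i, Fin (n i + 1) → K, (∀ i, y i ≠ 0) →
        (∀ i, ∀ g ∈ S i, eval (y i) g = 0) →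
        (∃ c : Fin r → L, (∀ i, c i ≠ 0) ∧ (fun i j => c i * σ (y i j)) ∈ U) →
        ∀ t : Fin r → K, eval (fun p => t p.1 * y p.1 p.2) f = 0}}

/-- The ideals of the local Zariski closures of the join of the `X_i`, where `X_i` is defined by
`S i`: the closed subset of the projective space with the coordinates `⟨i, j⟩`, `j ≤ n_i`, defined
by the forms in `S i` in the coordinates `⟨i, 0⟩, …, ⟨i, n_i⟩`, for all `i`. -/
def joinIdeals (σ : K →+* L) {r : ℕ} {n : Fin r → ℕ}
    (S : ∀ i, Set (MvPolynomial (Fin (n i + 1)) K)) :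
    Set (Set (MvPolynomial (Σ i, Fin (n i + 1)) K)) :=
  {J | ∃ x : (Σ i, Fin (n i + 1)) → L, x ≠ 0 ∧
    (∀ i, ∀ g ∈ S i, eval₂ σ (fun j => x ⟨i, j⟩) g = 0) ∧
    J = {f : MvPolynomial (Σ i, Fin (n i + 1)) K |
      ∃ U ∈ nhds x, ∀ y : (Σ i, Fin (n i + 1)) → K, y ≠ 0 →
        (∀ i, ∀ g ∈ S i, eval (fun j => y ⟨i, j⟩) g = 0) →
        (∃ c : L, c ≠ 0 ∧ (fun p => c * σ (y p)) ∈ U) → ∀ t : K, eval (t • y) f = 0}}

/-- `X` is a hypersurface of degree at most three or an intersection of two hypersurfaces of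
degree at most two. -/
def IsSmall {n : ℕ} (S : Set (MvPolynomial (Fin (n + 1)) K)) : Prop :=
  (∃ (F : MvPolynomial (Fin (n + 1)) K) (d : ℕ), F.IsHomogeneous d ∧ d ≤ 3 ∧ S = {F}) ∨
  ∃ (F G : MvPolynomial (Fin (n + 1)) K) (d e : ℕ), F.IsHomogeneous d ∧ d ≤ 2 ∧
    G.IsHomogeneous e ∧ e ≤ 2 ∧ S = {F, G}

/-- **Mazur's question for products and joins.** -/
theorem result :
    ∀ (K : Type u) [Field K] [NumberField K] (L : Type v) [NontriviallyNormedField L]
      [CompleteSpace L] (σ : K →+* L), DenseRange σ →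
    ∀ (r : ℕ) (n : Fin r → ℕ) (S : ∀ i, Set (MvPolynomial (Fin (n i + 1)) K)),
      (∀ i, ∀ f ∈ S i, ∃ d : ℕ, f.IsHomogeneous d) →
      -- (1) products and joins
      ((∀ i, (localIdeals σ (S i)).Finite) →
        (productIdeals σ S).Finite ∧ (joinIdeals σ S).Finite) ∧
      -- (2) cubic hypersurfaces and intersections of two quadrics
      ((∀ i, IsSmall (S i)) → (productIdeals σ S).Finite ∧ (joinIdeals σ S).Finite) := by
  intro K _ _ L _ _ σ hσ r n S hS
  have hcone : ∀ i, ∀ y ∈ {y : Fin (n i + 1) → K | ∀ g ∈ S i, eval y g = 0}, ∀ t : K,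
      t • y ∈ {y : Fin (n i + 1) → K | ∀ g ∈ S i, eval y g = 0} := by
    intro i y hy t g hg
    obtain ⟨d, hd⟩ := hS i g hg
    rw [Pool.Agent.Q256.Prod.eval_smul_hom hd, hy g hg, mul_zero]
  have h1 : (∀ i, (localIdeals σ (S i)).Finite) →
      (productIdeals σ S).Finite ∧ (joinIdeals σ S).Finite := by
    intro hfin
    constructor
    · have h := Pool.Agent.Q256.Prod.ploc_finite σ
        (fun i => {y : Fin (n i + 1) → K | ∀ g ∈ S i, eval y g = 0})
        {x : ∀ i, Fin (n i + 1) → L | (∀ i, x i ≠ 0) ∧ ∀ i, ∀ g ∈ S i, eval₂ σ (x i) g = 0}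
        (fun i => (hfin i).subset (by
          rintro J ⟨x, hx, rfl⟩
          exact ⟨x i, hx.1 i, hx.2 i, rfl⟩))
      refine h.subset ?_
      rintro J ⟨x, hx0, hxS, rfl⟩
      exact ⟨x, ⟨hx0, hxS⟩, rfl⟩
    · have h := Pool.Agent.Q256.Prod.jloc_finite σ hσ
        (fun i => {y : Fin (n i + 1) → K | ∀ g ∈ S i, eval y g = 0}) hcone
        {x : (Σ i, Fin (n i + 1)) → L | x ≠ 0 ∧
          ∀ i, ∀ g ∈ S i, eval₂ σ (fun j => x ⟨i, j⟩) g = 0} (fun x hx => hx.1)
        (fun i => (hfin i).subset (by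
          rintro J ⟨x, hx, hi, rfl⟩
          exact ⟨fun j => x ⟨i, j⟩, hi, hx.2 i, rfl⟩))
      refine h.subset ?_
      rintro J ⟨x, hx0, hxS, rfl⟩
      exact ⟨x, ⟨hx0, hxS⟩, rfl⟩
  refine ⟨h1, fun hsmall => h1 fun i => ?_⟩
  have : CharZero L := charZero_of_injective_ringHom σ.injective
  have : ProperSpace L := Pool.Agent.W279.Tri.properSpace_of_denseRange σ hσ
  obtain ⟨F, d, hF, hd, h⟩ | ⟨F, G, d, e, hF, hd, hG, he, h⟩ := hsmall i
  · rw [h]
    refine (Pool.Agent.TH729.CV.fin_ideals σ hσ hF hd).subset ?_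
    rintro J ⟨x, hx, hxS, rfl⟩
    refine ⟨x, hx, hxS F rfl, ?_⟩
    simp only [Set.mem_singleton_iff, forall_eq]
  · rw [h]
    refine (Pool.Agent.TH729.CV.fin_ideals_two σ hσ hF hd hG he).subset ?_
    rintro J ⟨x, hx, hxS, rfl⟩
    refine ⟨x, hx, ?_⟩
    simp only [Set.mem_insert_iff, Set.mem_singleton_iff, forall_eq_or_imp, forall_eq]

end Pool.Agent.Results.MP_f9f755_nt.ProductsAndJoins
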