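import Pool.Agent.Q256.Red

/-!
# Mazur's question: quartic hypersurfaces and intersections of quadrics are universal

Let `K` be a number field and `L` its completion at a place (a complete nontrivially normed field
with a homomorphism `σ : K →+* L` of dense range). Mazur's question for `K` and this place has a
positive answer for all irreducible projective varieties over `K` if and only if it has a positive
answer for one of the following classes:

(1) all closed subsets of projective spaces over `K` (reducible ones, too);
(2) all intersections of finitely many quadrics;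
(3) all hypersurfaces;
(4) if `K` has a real embedding, for instance `K = ℚ`: all hypersurfaces of degree four.

This is sharp. By the theorems on `CubicHypersurfaces` and `TwoQuadrics` in this folder the
answer is positive for all hypersurfaces of degree at most three and all intersections of two
quadrics, for every place. So the first open case, the hypersurfaces of degree four, already
contains the whole question over `ℚ`.

Proof. Forms of different degrees defining `X` are replaced by forms of one degree `D`. Under the
Veronese map `v` of degree `D` the variety `X` goes to an intersection of quadrics `Y`, and the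
ideal of `Z_x` is determined by the ideal of `Z_{v(x)}` on `Y`: a form `f` in the ideal of
`Z_x`, multiplied by powers of the coordinates, is a form on `Y`, and the inverse of `v` is given
by charts. A closed set with the same rational points as `Y` and containing the `L`-valued points
of `Y` has the same local closures at these points. Over a field with a real embedding
`∑ qᵢ² = 0` is such a set; over any number field, with `α ∈ K` not a square, `F² - α G² = 0` has the
same rational points as `F = G = 0`, for forms `F`, `G` of the same degree, which leads to one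
form. The reduction of (1) to irreducible varieties is a noetherian induction, as the local
closures of a union are the unions of the local closures.
-/

set_option autoImplicit false

namespace Pool.Agent.Results.MP_f9f755_nt.QuarticsSuffice

open MvPolynomial

universe u v

variable {K : Type u} [Field K] {L : Type v} [NontriviallyNormedField L]

/-- The ideals of the local Zariski closures `Z_x` of the closed subset of `ℙⁿ` defined by `S`, as
in the frozen statement of the problem. -/
def localIdeals (σ : K →+* L) {n : ℕ} (S : Set (MvPolynomial (Fin (n + 1)) K)) :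
    Set (Set (MvPolynomial (Fin (n + 1)) K)) :=
  {J | ∃ x : Fin (n + 1) → L, x ≠ 0 ∧ (∀ g ∈ S, eval₂ σ x g = 0) ∧
    J = {f : MvPolynomial (Fin (n + 1)) K |
      ∃ U ∈ nhds x, ∀ y : Fin (n + 1) → K, y ≠ 0 → (∀ g ∈ S, eval y g = 0) →
        (∃ c : L, c ≠ 0 ∧ (fun i => c * σ (y i)) ∈ U) → ∀ t : K, eval (t • y) f = 0}}

/-- Mazur's question has a positive answer, for the number field `K` and the place given by `σ`,
for all closed subsets of projective spaces defined by sets of forms in the class `P`. -/
def Positive (σ : K →+* L) (P : ∀ n : ℕ, Set (MvPolynomial (Fin (n + 1)) K) → Prop) : Prop :=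
  ∀ (n : ℕ) (S : Set (MvPolynomial (Fin (n + 1)) K)), (∀ f ∈ S, ∃ d : ℕ, f.IsHomogeneous d) →
    P n S → (localIdeals σ S).Finite

/-- Mazur's question has a positive answer for the number field `K` and the place given by `σ`:
for all irreducible projective varieties over `K`, as in the frozen statement. -/
def MazurPositive (σ : K →+* L) : Prop :=
  Positive σ fun _ S => (Ideal.span S).radical.IsPrime

theorem exists_not_isSquare (K : Type u) [Field K] [NumberField K] : ∃ α : K, ¬ IsSquare α := by
  obtain ⟨p, hp0, hp⟩ := Ring.not_isField_iff_exists_prime.1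
    (NumberField.RingOfIntegers.not_isField K)
  let v : IsDedekindDomain.HeightOneSpectrum (NumberField.RingOfIntegers K) := ⟨p, hp, hp0⟩
  obtain ⟨π, hπ⟩ := v.valuation_exists_uniformizer K
  refine ⟨π, ?_⟩
  rintro ⟨r, rfl⟩
  rw [map_mul] at hπ
  have h0 : v.valuation K r ≠ 0 := by
    intro h
    rw [h, zero_mul] at hπ
    exact WithZero.exp_ne_zero hπ.symm
  have h1 := congrArg WithZero.log hπ
  rw [WithZero.log_mul h0 h0, WithZero.log_exp] at h1
  omega

/-- finitely many quadratic forms can be replaced by one form -/
theorem one_form {κ : Type} {α : K} (hα : ¬ IsSquare α) (T : Finset (MvPolynomial κ K))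
    (hT : ∀ q ∈ T, q.IsHomogeneous 2) : ∃ (m : ℕ) (F : MvPolynomial κ K), 0 < m ∧
      F.IsHomogeneous (2 * m) ∧ F ∈ Ideal.span (T : Set (MvPolynomial κ K)) ∧
      ∀ z : κ → K, eval z F = 0 → ∀ q ∈ T, eval z q = 0 := by
  classical
  induction T using Finset.induction_on with
  | empty => exact ⟨1, 0, one_pos, isHomogeneous_zero _ _ _, Ideal.zero_mem _, by simp⟩
  | insert q T hq ih =>
    obtain ⟨m, F, hm, hF, hFT, hFz⟩ := ih fun q hq => hT q (Finset.mem_insert_of_mem hq)
    refine ⟨2 * m, F ^ 2 - C α * q ^ (2 * m), by omega, ?_, ?_, ?_⟩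
    · have h1 : (F ^ 2).IsHomogeneous (2 * (2 * m)) := by
        have := hF.pow 2
        rwa [mul_comm] at this
      have h2 : (C α * q ^ (2 * m)).IsHomogeneous (2 * (2 * m)) := by
        have := (isHomogeneous_C κ α).mul ((hT q (Finset.mem_insert_self q T)).pow (2 * m))
        rwa [zero_add] at this
      exact h1.sub h2
    · refine Ideal.sub_mem _ ?_ ?_
      · refine Ideal.pow_mem_of_mem _ ?_ 2 (by norm_num)
        exact Ideal.span_mono (by exact_mod_cast Finset.subset_insert q T) hFT
      · refine Ideal.mul_mem_left _ _ (Ideal.pow_mem_of_mem _ ?_ _ (by omega))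
        exact Ideal.subset_span (by exact_mod_cast Finset.mem_insert_self q T)
    · intro z hz
      simp only [map_sub, map_mul, map_pow, eval_C] at hz
      have hz' : eval z F ^ 2 = α * eval z q ^ (2 * m) := sub_eq_zero.1 hz
      have hq0 : eval z q = 0 := by
        by_contra hne
        refine hα ⟨eval z F / eval z q ^ m, ?_⟩
        rw [div_mul_div_comm, ← pow_add, ← two_mul, ← sq, hz', mul_div_assoc,
          div_self (pow_ne_zero _ hne), mul_one]
      have hF0 : eval z F = 0 := by
        rw [hq0, zero_pow (by omega), mul_zero] at hz'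
        exact pow_eq_zero_iff (two_ne_zero) |>.1 hz'
      intro q' hq'
      rcases Finset.mem_insert.1 hq' with rfl | h
      · exact hq0
      · exact hFz z hF0 q' h

/-- the general reduction: every class of closed sets which contains, for every intersection of
quadrics, a set with the same rational points which contains its `L`-valued points -/
theorem transfer (σ : K →+* L) [Infinite K]
    (P : ∀ n : ℕ, Set (MvPolynomial (Fin (n + 1)) K) → Prop)
    (hP : ∀ n (T : Finset (MvPolynomial (Fin (n + 1)) K)), (∀ q ∈ T, q.IsHomogeneous 2) →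
      ∃ T' : Set (MvPolynomial (Fin (n + 1)) K), (∀ f ∈ T', ∃ d : ℕ, f.IsHomogeneous d) ∧
        P n T' ∧ T' ⊆ Ideal.span (T : Set (MvPolynomial (Fin (n + 1)) K)) ∧
        ∀ z : Fin (n + 1) → K, (∀ f ∈ T', eval z f = 0) → ∀ q ∈ T, eval z q = 0)
    (h : Positive σ P) : Positive σ fun _ _ => True := by
  classical
  intro n S hS _
  obtain ⟨d, T, hT, hTS⟩ := Pool.Agent.Q256.Red.reduce (κ := Fin (n + 1)) σ S hS
  -- rename the variables
  have hcard : 0 < Fintype.card (Fin (d + 1) → Fin (n + 1)) := Fintype.card_pos
  obtain ⟨N, hN⟩ : ∃ N, Fintype.card (Fin (d + 1) → Fin (n + 1)) = N + 1 :=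
    ⟨_, (Nat.succ_pred_eq_of_pos hcard).symm⟩
  let e : (Fin (d + 1) → Fin (n + 1)) ≃ Fin (N + 1) := (Fintype.equivFin _).trans (finCongr hN)
  obtain ⟨T', hT'h, hPT', hspan, hzero⟩ := hP N (T.image (rename e)) (by
    intro q hq
    obtain ⟨q', hq', rfl⟩ := Finset.mem_image.1 hq
    exact (hT q' hq').rename_isHomogeneous)
  have hfin : (Pool.Agent.Q256.Red.LIs σ T').Finite := h N T' hT'h hPT'
  have himg : rename e '' (rename e.symm '' T') = T' := by
    rw [← Set.image_comp]
    have : (rename (R := K) e ∘ rename e.symm) = id := by
      funext f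
      rw [Function.comp_apply, rename_rename, Equiv.self_comp_symm, rename_id]
      rfl
    rw [this, Set.image_id]
  have hfin' : (Pool.Agent.Q256.Red.LIs σ (rename e.symm '' T')).Finite :=
    Pool.Agent.Q256.Red.LIs_rename σ e _ (by rwa [himg])
  have hspan' : ∀ f ∈ rename e.symm '' T', f ∈ Ideal.span (T : Set (MvPolynomial _ K)) := by
    rintro _ ⟨f, hf, rfl⟩
    have h1 := hspan hf
    have h2 : (rename (R := K) e.symm) f ∈ Ideal.map (rename (R := K) e.symm)
        (Ideal.span ((T.image (rename e) : Finset _) : Set (MvPolynomial (Fin (N + 1)) K))) :=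
      Ideal.mem_map_of_mem _ h1
    rw [Ideal.map_span, Finset.coe_image, ← Set.image_comp] at h2
    have : (⇑(rename (R := K) e.symm) ∘ ⇑(rename (R := K) e)) = id := by
      funext f
      rw [Function.comp_apply, rename_rename, Equiv.symm_comp_self, rename_id]
      rfl
    rwa [this, Set.image_id] at h2
  refine hTS (rename e.symm '' T') (fun z => ?_) (fun x hx => ?_) hfin'
  · constructor
    · intro hz q hq
      have h1 := hzero (z ∘ e.symm) (fun f hf => by
        have := hz _ ⟨f, hf, rfl⟩
        rwa [eval_rename] at this) (rename e q) (Finset.mem_image_of_mem _ hq)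
      rw [eval_rename] at h1
      have h2 : (z ∘ e.symm) ∘ e = z := by
        funext i
        simp
      rwa [h2] at h1
    · intro hz f hf
      have h1 : ∀ g ∈ (T : Set (MvPolynomial (Fin (d + 1) → Fin (n + 1)) K)), eval z g = 0 :=
        fun g hg => hz g hg
      exact (Pool.Agent.Q256.Red.zero_span (eval z) _).1 h1 f (hspan' f hf)
  · intro f hf
    have h1 : ∀ g ∈ (T : Set (MvPolynomial (Fin (d + 1) → Fin (n + 1)) K)),
        eval₂Hom σ x g = 0 := fun g hg => by
      rw [coe_eval₂Hom]
      exact hx g hg
    have h2 := (Pool.Agent.Q256.Red.zero_span (eval₂Hom σ x) _).1 h1 f (hspan' f hf)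
    rwa [coe_eval₂Hom] at h2

/-- **Quartic hypersurfaces and intersections of quadrics are universal for Mazur's question.** -/
theorem result :
    ∀ (K : Type u) [Field K] [NumberField K] (L : Type v) [NontriviallyNormedField L]
      [CompleteSpace L] (σ : K →+* L), DenseRange σ →
      -- (1) all closed subsets
      (MazurPositive σ ↔ Positive σ fun _ _ => True) ∧
      -- (2) intersections of finitely many quadrics
      (MazurPositive σ ↔ Positive σ fun _ S => S.Finite ∧ ∀ q ∈ S, q.IsHomogeneous 2) ∧
      -- (3) hypersurfaces
      (MazurPositive σ ↔ Positive σ fun _ S => ∃ F, S = {F}) ∧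
      -- (4) quartic hypersurfaces
      (Nonempty (K →+* ℝ) →
        (MazurPositive σ ↔ Positive σ fun _ S => ∃ F, F.IsHomogeneous 4 ∧ S = {F})) := by
  classical
  intro K _ _ L _ _ σ hσ
  have hall : MazurPositive σ ↔ Positive σ fun _ _ => True := by
    constructor
    · intro h n S hS _
      exact Pool.Agent.Q256.Red.of_irreducible σ (fun S hS hp => h n S hS hp) S hS
    · intro h n S hS _
      exact h n S hS trivial
  have hmono : ∀ P, MazurPositive σ → Positive σ P := fun P h n S hS _ => hall.1 h n S hS trivial
  refine ⟨hall, ⟨hmono _, fun h => hall.2 ?_⟩, ⟨hmono _, fun h => hall.2 ?_⟩,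
    fun hreal => ⟨hmono _, fun h => hall.2 ?_⟩⟩
  · refine transfer σ _ (fun n T hT => ?_) h
    exact ⟨T, fun f hf => ⟨2, hT f hf⟩, ⟨T.finite_toSet, hT⟩, Ideal.subset_span,
      fun z hz q hq => hz q hq⟩
  · refine transfer σ _ (fun n T hT => ?_) h
    obtain ⟨α, hα⟩ := exists_not_isSquare K
    obtain ⟨m, F, -, hF, hFT, hFz⟩ := one_form hα T hT
    refine ⟨{F}, ?_, ⟨F, rfl⟩, Set.singleton_subset_iff.2 hFT, fun z hz => hFz z (hz F rfl)⟩
    rintro f rfl
    exact ⟨_, hF⟩
  · obtain ⟨τ⟩ := hreal
    refine transfer σ _ (fun n T hT => ?_) h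
    have hhom : (∑ q ∈ T, q ^ 2).IsHomogeneous 4 :=
      IsHomogeneous.sum _ _ _ fun q hq => (hT q hq).pow 2
    refine ⟨{∑ q ∈ T, q ^ 2}, ?_, ⟨_, hhom, rfl⟩, ?_, ?_⟩
    · rintro f rfl
      exact ⟨_, hhom⟩
    · rw [Set.singleton_subset_iff]
      exact Ideal.sum_mem _ fun q hq => Ideal.pow_mem_of_mem _ (Ideal.subset_span hq) 2
        (by norm_num)
    · intro z hz q hq
      have h1 := hz _ rfl
      rw [map_sum] at h1
      have h2 := congrArg τ h1
      rw [map_sum, map_zero] at h2
      have h3 : ∀ q ∈ T, 0 ≤ τ (eval z (q ^ 2)) := by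
        intro q _
        rw [map_pow, map_pow]
        positivity
      have h4 := (Finset.sum_eq_zero_iff_of_nonneg h3).1 h2 q hq
      rw [map_pow, map_pow] at h4
      have h5 : τ (eval z q) = 0 := pow_eq_zero_iff two_ne_zero |>.1 h4
      exact (map_eq_zero τ).1 h5

end Pool.Agent.Results.MP_f9f755_nt.QuarticsSuffice
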